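import Mathlib
import Pool.Agent.Helper398.Bridge

set_option autoImplicit false

namespace Pool.Agent.Results.MP_0b126a_co.Asymptotic

/-- The set of sums of the nonempty subsets of S (each element used at most once). -/
def Sums {G : Type} [AddCommGroup G] (S : Finset G) : Set G :=
  {s | ∃ B : Finset G, B ⊆ S ∧ B.Nonempty ∧ ∑ b ∈ B, b = s}

/-- S is zero-sum-free: no nonempty subset of S has sum zero. -/
def ZeroSumFree {G : Type} [AddCommGroup G] (S : Finset G) : Prop := (0 : G) ∉ Sums S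

/-- All values taken by the number of nonempty subset sums of S, as S runs over the
zero-sum-free k-element subsets of all finite abelian groups. -/
def values (k : ℕ) : Set ℕ :=
  {n | ∃ (G : Type) (_ : AddCommGroup G) (_ : Finite G) (S : Finset G),
    S.card = k ∧ ZeroSumFree S ∧ (Sums S).ncard = n}

/-- f(k): the minimum number of nonempty subset sums of a zero-sum-free k-element set. -/
noncomputable def f (k : ℕ) : ℕ := sInf (values k)

/-- sanity: the upper bound k(k+1)/2 and non-emptiness of the set of values -/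
theorem exists_value_le (k : ℕ) : ∃ n ∈ values k, n ≤ k * (k + 1) / 2 := by
  classical
  obtain ⟨A, hA, hA2⟩ := Pool.Agent.Helper398.example_card k
  have h0 : (0 : ZMod (k * (k + 1) / 2 + 1)) ∉ Sums A := by
    rintro ⟨B, hB, hne, hs⟩
    exact hA2 B hB hne hs
  refine ⟨(Sums A).ncard, ⟨ZMod (k * (k + 1) / 2 + 1), inferInstance, inferInstance, A, hA,
    h0, rfl⟩, ?_⟩
  have h1 := Pool.Agent.Helper398.ncard_bridge A (Sums A) (fun s => Iff.rfl) h0
  have h2 : A.subsetSum.card ≤ k * (k + 1) / 2 + 1 := by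
    have := Finset.card_le_univ A.subsetSum
    rwa [ZMod.card] at this
  omega

theorem f_mem (k : ℕ) : f k ∈ values k := by
  obtain ⟨n, hn, -⟩ := exists_value_le k
  exact Nat.sInf_mem ⟨n, hn⟩

theorem f_le (k : ℕ) : f k ≤ k * (k + 1) / 2 := by
  obtain ⟨n, hn, hn2⟩ := exists_value_le k
  exact le_trans (Nat.sInf_le hn) hn2

/-- The asymptotic behaviour of f: the ratio of f(k) and k²/2 tends to 1. -/
theorem result :
    Filter.Tendsto (fun k : ℕ => (f k : ℝ) / ((k : ℝ) ^ 2 / 2)) Filter.atTop (nhds 1) := by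
  classical
  rw [Metric.tendsto_atTop]
  intro ε hε
  obtain ⟨M, hM⟩ := Pool.Agent.Helper398.lower (1 / 2 - ε / 4) (by linarith)
  obtain ⟨M', hM'⟩ := exists_nat_gt (1 / ε)
  refine ⟨max M (M' + 1), fun k hk => ?_⟩
  have hk1 : M ≤ k := le_trans (le_max_left _ _) hk
  have hk2 : M' + 1 ≤ k := le_trans (le_max_right _ _) hk
  have hk3 : (M' : ℝ) + 1 ≤ k := by exact_mod_cast hk2
  have hM'0 : (0 : ℝ) ≤ M' := Nat.cast_nonneg _
  have hk0 : (0 : ℝ) < k := by linarith
  have hεk : 1 < ε * k := by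
    rw [div_lt_iff₀ hε] at hM'
    nlinarith
  obtain ⟨G, _, _, A, hA, hZ, hn⟩ := f_mem k
  have h1 := Pool.Agent.Helper398.ncard_bridge A (Sums A) (fun s => Iff.rfl) hZ
  have h2 := hM G A (by omega)
    (Pool.Agent.Helper398.ZSF_of_notMem A (Sums A) (fun s => Iff.rfl) hZ)
  rw [hn] at h1
  rw [hA, ← h1] at h2
  push_cast at h2
  have h3 : (f k : ℝ) ≤ k * (k + 1) / 2 := by
    have h4 := f_le k
    have h5 : 2 * f k ≤ k * (k + 1) := by omega
    have h6 : 2 * (f k : ℝ) ≤ k * (k + 1) := by exact_mod_cast h5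
    linarith
  have hk2pos : (0 : ℝ) < (k : ℝ) ^ 2 / 2 := by positivity
  rw [Real.dist_eq, abs_lt]
  constructor
  · rw [lt_sub_iff_add_lt, lt_div_iff₀ hk2pos]
    nlinarith
  · rw [sub_lt_iff_lt_add, div_lt_iff₀ hk2pos]
    nlinarith

end Pool.Agent.Results.MP_0b126a_co.Asymptotic
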